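import Pool.Agent.U136.DS.Stm

set_option autoImplicit false

/-!
# Project DS, package S4: sums over quadruples
-/

namespace Pool.Agent.U460.DS

open Pool.Agent.N983.RT Pool.Agent.U136.DS

/-! ### wave vectors -/

theorem nn (k : Wv) : 0 ≤ nsq k := Finset.sum_nonneg fun i _ => sq_nonneg (k i : ℝ)

theorem one_le {k : Wv} (hk : k ≠ 0) : 1 ≤ nsq k := by
  obtain ⟨i, hi⟩ := Function.ne_iff.1 hk
  have h1 : (k i : ℝ) ^ 2 ≤ nsq k :=
    Finset.single_le_sum (f := fun i => (k i : ℝ) ^ 2) (fun i _ => sq_nonneg _) (Finset.mem_univ i)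
  have h2 : (1 : ℤ) ≤ (k i) ^ 2 := by
    have : 0 < (k i) ^ 2 := by
      have h3 : k i ≠ 0 := hi
      positivity
    omega
  have h3 : (1 : ℝ) ≤ (k i : ℝ) ^ 2 := by exact_mod_cast h2
  linarith

theorem nsq_neg' (k : Wv) : nsq (-k) = nsq k := by
  unfold nsq
  refine Finset.sum_congr rfl fun i _ => ?_
  rw [Pi.neg_apply]; push_cast; ring

theorem nsq_add (a b : Wv) : nsq (a + b) ≤ 2 * (nsq a + nsq b) := by
  unfold nsq
  rw [← Finset.sum_add_distrib, Finset.mul_sum]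
  refine Finset.sum_le_sum fun i _ => ?_
  rw [Pi.add_apply]; push_cast
  nlinarith [sq_nonneg ((a i : ℝ) - b i)]

theorem nsq_add3 (a b c : Wv) : nsq (a + b + c) ≤ 3 * (nsq a + nsq b + nsq c) := by
  unfold nsq
  rw [← Finset.sum_add_distrib, ← Finset.sum_add_distrib, Finset.mul_sum]
  refine Finset.sum_le_sum fun i _ => ?_
  rw [Pi.add_apply, Pi.add_apply]; push_cast
  nlinarith [sq_nonneg ((a i : ℝ) - b i), sq_nonneg ((a i : ℝ) - c i), sq_nonneg ((b i : ℝ) - c i)]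

/-! ### the lattice sum -/

theorem summable_int {δ : ℝ} (hδ : 0 < δ) :
    Summable fun n : ℤ => (1 + (n : ℝ) ^ 2) ^ (-(1 / 2 + δ)) := by
  have h1 : Summable fun n : ℤ => |(n : ℝ)| ^ (-(1 + 2 * δ)) :=
    Real.summable_abs_int_rpow (by linarith)
  rw [← Set.finite_singleton (0 : ℤ) |>.summable_compl_iff] at h1 ⊢
  refine Summable.of_nonneg_of_le (fun n => ?_) (fun n => ?_) h1
  · simp only [Function.comp]
    positivity
  have hn : (n : ℤ) ≠ 0 := n.2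
  have h2 : (0 : ℝ) < |((n : ℤ) : ℝ)| := by
    have : ((n : ℤ) : ℝ) ≠ 0 := by exact_mod_cast hn
    positivity
  simp only [Function.comp]
  have h3 : |((n : ℤ) : ℝ)| ^ (-(1 + 2 * δ)) = (((n : ℤ) : ℝ) ^ 2) ^ (-(1 / 2 + δ)) := by
    rw [← sq_abs, ← Real.rpow_natCast, ← Real.rpow_mul h2.le]
    congr 1
    push_cast; ring
  rw [h3]
  have h4 : (0 : ℝ) < ((n : ℤ) : ℝ) ^ 2 := by rw [← sq_abs]; positivity
  exact Real.rpow_le_rpow_of_nonpos h4 (by linarith) (by linarith)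

theorem prod_le' (k : Wv) : ∏ i, (1 + (k i : ℝ) ^ 2) ≤ (1 + nsq k) ^ 3 := by
  have h : ∀ i ∈ (Finset.univ : Finset (Fin 3)), (1 + (k i : ℝ) ^ 2) ≤ 1 + nsq k := by
    intro i _
    have : (k i : ℝ) ^ 2 ≤ nsq k :=
      Finset.single_le_sum (f := fun i => (k i : ℝ) ^ 2) (fun i _ => sq_nonneg _) (Finset.mem_univ i)
    linarith
  calc ∏ i, (1 + (k i : ℝ) ^ 2) ≤ ∏ _i : Fin 3, (1 + nsq k) :=
        Finset.prod_le_prod (fun i _ => by positivity) h
    _ = (1 + nsq k) ^ 3 := by simp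

/-- the lattice sum -/
theorem lattice {η : ℝ} (hη : 0 < η) : ∃ C : ℝ, 0 ≤ C ∧ ∀ n : ℕ,
    ∑ k ∈ cub n, (if k = 0 then 0 else nsq k ^ (-(3 / 2 + η))) ≤ C := by
  set δ : ℝ := η / 3 with hδdef
  have hδ : 0 < δ := by positivity
  have hs := summable_int hδ
  refine ⟨2 ^ (3 / 2 + η) * (∑' n : ℤ, (1 + (n : ℝ) ^ 2) ^ (-(1 / 2 + δ))) ^ 3, ?_, ?_⟩
  · have : 0 ≤ ∑' n : ℤ, (1 + (n : ℝ) ^ 2) ^ (-(1 / 2 + δ)) := tsum_nonneg fun n => by positivity
    positivity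
  intro n
  calc ∑ k ∈ cub n, (if k = 0 then 0 else nsq k ^ (-(3 / 2 + η)))
      ≤ ∑ k ∈ cub n, 2 ^ (3 / 2 + η) * ∏ i, (1 + (k i : ℝ) ^ 2) ^ (-(1 / 2 + δ)) := by
        refine Finset.sum_le_sum fun k _ => ?_
        by_cases hk : k = 0
        · rw [if_pos hk]; positivity
        rw [if_neg hk]
        have h1 := one_le hk
        have h0 : 0 < nsq k := by linarith
        have e1 : nsq k ^ (-(3 / 2 + η)) ≤ 2 ^ (3 / 2 + η) * (1 + nsq k) ^ (-(3 / 2 + η)) := by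
          have e2 : (2 * nsq k) ^ (-(3 / 2 + η)) ≤ (1 + nsq k) ^ (-(3 / 2 + η)) :=
            Real.rpow_le_rpow_of_nonpos (by linarith) (by linarith) (by linarith)
          rw [Real.mul_rpow (by norm_num) h0.le, Real.rpow_neg (by norm_num : (0:ℝ) ≤ 2)] at e2
          have h2 : (0 : ℝ) < 2 ^ (3 / 2 + η) := by positivity
          calc nsq k ^ (-(3 / 2 + η))
              = 2 ^ (3 / 2 + η) * ((2 ^ (3 / 2 + η))⁻¹ * nsq k ^ (-(3 / 2 + η))) := by
                field_simp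
            _ ≤ _ := mul_le_mul_of_nonneg_left e2 h2.le
        refine e1.trans (mul_le_mul_of_nonneg_left ?_ (by positivity))
        have hpos : 0 < ∏ i, (1 + (k i : ℝ) ^ 2) := Finset.prod_pos fun i _ => by positivity
        rw [Real.finsetProd_rpow _ _ (fun i _ => by positivity)]
        have e3 : (1 + nsq k) ^ (-(3 / 2 + η)) = ((1 + nsq k) ^ 3) ^ (-(1 / 2 + δ)) := by
          rw [← Real.rpow_natCast, ← Real.rpow_mul (by linarith)]
          congr 1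
          rw [hδdef]; push_cast; ring
        rw [e3]
        exact Real.rpow_le_rpow_of_nonpos hpos (prod_le' k) (by linarith)
    _ = 2 ^ (3 / 2 + η) * ∑ k ∈ cub n, ∏ i, (1 + (k i : ℝ) ^ 2) ^ (-(1 / 2 + δ)) := by
        rw [Finset.mul_sum]
    _ ≤ 2 ^ (3 / 2 + η) * (∑' n : ℤ, (1 + (n : ℝ) ^ 2) ^ (-(1 / 2 + δ))) ^ 3 := by
        refine mul_le_mul_of_nonneg_left ?_ (by positivity)
        calc ∑ k ∈ cub n, ∏ i, (1 + (k i : ℝ) ^ 2) ^ (-(1 / 2 + δ))
            = ∏ _i : Fin 3, ∑ m ∈ Finset.Icc (-(n : ℤ)) (n : ℤ), (1 + ((m : ℤ) : ℝ) ^ 2) ^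
                (-(1 / 2 + δ)) := by
              rw [Finset.prod_univ_sum]
              rfl
          _ ≤ ∏ _i : Fin 3, ∑' n : ℤ, (1 + (n : ℝ) ^ 2) ^ (-(1 / 2 + δ)) := by
              refine Finset.prod_le_prod (fun i _ => Finset.sum_nonneg fun n _ => by positivity) ?_
              intro i _
              exact hs.sum_le_tsum _ (fun n _ => by positivity)
          _ = _ := by simp

/-! ### the pointwise bound -/

theorem pointwise {p η : ℝ} (hp : 0 ≤ p) (hη : 0 < η) {f : Wv → ℝ} (hf : ∀ k, 0 ≤ f k)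
    (hf0 : f 0 = 0) (v : Fin 4 → Wv) (hv : v 0 + v 1 + v 2 + v 3 = 0) :
    mx (v 0 + v 1) (v 2) (v 3) ^ (p / 2) * (f (v 0) * f (v 1) * f (v 2) * f (v 3)) ≤
      36 ^ (p / 2) * ∑ σ : Equiv.Perm (Fin 4),
        (nsq (v (σ 3)) ^ (p / 2 + 3 / 2 + η) * f (v (σ 3)) ^ 2) *
          ((nsq (v (σ 0)) ^ (-(3 / 4 + η / 2)) * f (v (σ 0))) *
            (nsq (v (σ 1)) ^ (-(3 / 4 + η / 2)) * f (v (σ 1)))) := by
  set G : Wv → ℝ := fun k => nsq k ^ (p / 2 + 3 / 2 + η) * f k ^ 2 with hG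
  set H : Wv → ℝ := fun k => nsq k ^ (-(3 / 4 + η / 2)) * f k with hH
  have hG0 : ∀ k, 0 ≤ G k := fun k => mul_nonneg (Real.rpow_nonneg (nn k) _) (sq_nonneg _)
  have hH0 : ∀ k, 0 ≤ H k := fun k => mul_nonneg (Real.rpow_nonneg (nn k) _) (hf k)
  show _ ≤ 36 ^ (p / 2) * ∑ σ : Equiv.Perm (Fin 4), G (v (σ 3)) * (H (v (σ 0)) * H (v (σ 1)))
  have hterm : ∀ σ : Equiv.Perm (Fin 4), 0 ≤ G (v (σ 3)) * (H (v (σ 0)) * H (v (σ 1))) :=
    fun σ => mul_nonneg (hG0 _) (mul_nonneg (hH0 _) (hH0 _))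
  have hsum0 : 0 ≤ ∑ σ : Equiv.Perm (Fin 4), G (v (σ 3)) * (H (v (σ 0)) * H (v (σ 1))) :=
    Finset.sum_nonneg fun σ _ => hterm σ
  by_cases hz : f (v 0) * f (v 1) * f (v 2) * f (v 3) = 0
  · rw [hz, mul_zero]; positivity
  -- all vectors are nonzero
  have hv0 : ∀ i, v i ≠ 0 := by
    intro i hi
    apply hz
    fin_cases i <;> simp at hi <;> simp [hi, hf0]
  set σ := Tuple.sort (fun i => nsq (v i)) with hσ
  have hmono := Tuple.monotone_sort (fun i => nsq (v i))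
  rw [← hσ] at hmono
  have h01 : nsq (v (σ 0)) ≤ nsq (v (σ 1)) := hmono (by decide)
  have h12 : nsq (v (σ 1)) ≤ nsq (v (σ 2)) := hmono (by decide)
  have h23 : nsq (v (σ 2)) ≤ nsq (v (σ 3)) := hmono (by decide)
  have hsumσ : v (σ 0) + v (σ 1) + v (σ 2) + v (σ 3) = 0 := by
    have h1 : ∑ i, v (σ i) = ∑ i, v i := Equiv.sum_comp σ v
    rw [Fin.sum_univ_four, Fin.sum_univ_four, hv] at h1
    exact h1
  set X := nsq (v (σ 3)) with hX
  set Y := nsq (v (σ 2)) with hY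
  have hY1 : 1 ≤ Y := one_le (hv0 _)
  have hX1 : 1 ≤ X := one_le (hv0 _)
  have hX9 : X ≤ 9 * Y := by
    have h1 : v (σ 3) = -(v (σ 0) + v (σ 1) + v (σ 2)) := by
      rw [eq_neg_iff_add_eq_zero, add_comm]; exact hsumσ
    have h2 : X = nsq (v (σ 0) + v (σ 1) + v (σ 2)) := by
      rw [hX, h1, nsq_neg']
    have h3 := nsq_add3 (v (σ 0)) (v (σ 1)) (v (σ 2))
    rw [h2]
    linarith
  -- all are at most X
  have hle : ∀ i, nsq (v i) ≤ X := by
    intro i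
    have h1 : (σ.symm i) ≤ 3 := Fin.le_last _
    have h2 := hmono h1
    simp only [Function.comp, Equiv.apply_symm_apply] at h2
    exact h2
  have hmx : mx (v 0 + v 1) (v 2) (v 3) ≤ 4 * X := by
    unfold mx
    refine max_le ?_ (max_le ?_ ?_)
    · have := nsq_add (v 0) (v 1)
      linarith [hle 0, hle 1]
    · linarith [hle 2]
    · linarith [hle 3]
  have hmx0 : 0 ≤ mx (v 0 + v 1) (v 2) (v 3) := le_max_of_le_left (nn _)
  have hprod : f (v 0) * f (v 1) * f (v 2) * f (v 3) =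
      f (v (σ 0)) * f (v (σ 1)) * f (v (σ 2)) * f (v (σ 3)) := by
    have h1 : ∏ i, f (v (σ i)) = ∏ i, f (v i) := Equiv.prod_comp σ (fun i => f (v i))
    rw [Fin.prod_univ_four, Fin.prod_univ_four] at h1
    exact h1.symm
  -- f = nsq ^ (3/4 + η/2) H
  have hfH : ∀ k, k ≠ 0 → nsq k ≤ Y → f k ≤ Y ^ (3 / 4 + η / 2) * H k := by
    intro k hk hkY
    have h1 := one_le hk
    have h2 : f k = nsq k ^ (3 / 4 + η / 2) * H k := by
      rw [hH]
      simp only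
      rw [← mul_assoc, ← Real.rpow_add (by linarith), add_neg_cancel, Real.rpow_zero, one_mul]
    calc f k = nsq k ^ (3 / 4 + η / 2) * H k := h2
      _ ≤ Y ^ (3 / 4 + η / 2) * H k :=
        mul_le_mul_of_nonneg_right (Real.rpow_le_rpow (nn k) hkY (by linarith)) (hH0 k)
  have hf0' := hfH (v (σ 0)) (hv0 _) (h01.trans h12)
  have hf1' := hfH (v (σ 1)) (hv0 _) h12
  set S := ∑ σ : Equiv.Perm (Fin 4), G (v (σ 3)) * (H (v (σ 0)) * H (v (σ 1))) with hS
  have hT3 : G (v (σ 3)) * (H (v (σ 0)) * H (v (σ 1))) ≤ S :=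
    Finset.single_le_sum (f := fun σ : Equiv.Perm (Fin 4) =>
      G (v (σ 3)) * (H (v (σ 0)) * H (v (σ 1)))) (fun σ _ => hterm σ) (Finset.mem_univ σ)
  have hT2 : G (v (σ 2)) * (H (v (σ 0)) * H (v (σ 1))) ≤ S := by
    have h1 := Finset.single_le_sum (f := fun σ : Equiv.Perm (Fin 4) =>
      G (v (σ 3)) * (H (v (σ 0)) * H (v (σ 1)))) (fun σ _ => hterm σ)
      (Finset.mem_univ (σ * Equiv.swap 2 3))
    simp only [Equiv.Perm.mul_apply, Equiv.swap_apply_right] at h1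
    rw [Equiv.swap_apply_of_ne_of_ne (by decide) (by decide),
      Equiv.swap_apply_of_ne_of_ne (by decide) (by decide)] at h1
    exact h1
  have hXp : X ^ (p / 2) ≤ 9 ^ (p / 2) * Y ^ (p / 2) := by
    rw [← Real.mul_rpow (by norm_num) (by linarith)]
    exact Real.rpow_le_rpow (by linarith) hX9 (by linarith)
  have h9 : (1 : ℝ) ≤ 9 ^ (p / 2) := Real.one_le_rpow (by norm_num) (by linarith)
  -- the two main products
  have hYr : 0 ≤ Y ^ (3 / 2 + η) := by positivity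
  have hA : X ^ (p / 2) * Y ^ (3 / 2 + η) * f (v (σ 3)) ^ 2 ≤ 9 ^ (p / 2) * G (v (σ 3)) := by
    have h1 : X ^ (p / 2) * Y ^ (3 / 2 + η) ≤ X ^ (p / 2 + 3 / 2 + η) := by
      have e : X ^ (p / 2 + 3 / 2 + η) = X ^ (p / 2) * X ^ (3 / 2 + η) := by
        rw [add_assoc, Real.rpow_add (by linarith)]
      rw [e]
      exact mul_le_mul_of_nonneg_left (Real.rpow_le_rpow (by linarith) h23 (by linarith))
        (by positivity)
    calc X ^ (p / 2) * Y ^ (3 / 2 + η) * f (v (σ 3)) ^ 2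
        ≤ X ^ (p / 2 + 3 / 2 + η) * f (v (σ 3)) ^ 2 :=
          mul_le_mul_of_nonneg_right h1 (sq_nonneg _)
      _ = 1 * G (v (σ 3)) := by rw [one_mul]
      _ ≤ _ := mul_le_mul_of_nonneg_right h9 (hG0 _)
  have hB : X ^ (p / 2) * Y ^ (3 / 2 + η) * f (v (σ 2)) ^ 2 ≤ 9 ^ (p / 2) * G (v (σ 2)) := by
    calc X ^ (p / 2) * Y ^ (3 / 2 + η) * f (v (σ 2)) ^ 2
        ≤ (9 ^ (p / 2) * Y ^ (p / 2)) * Y ^ (3 / 2 + η) * f (v (σ 2)) ^ 2 := by
          gcongr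
      _ = 9 ^ (p / 2) * (Y ^ (p / 2 + 3 / 2 + η) * f (v (σ 2)) ^ 2) := by
          have e : Y ^ (p / 2 + 3 / 2 + η) = Y ^ (p / 2) * Y ^ (3 / 2 + η) := by
            rw [add_assoc, Real.rpow_add (by linarith)]
          rw [e]; ring
      _ = _ := rfl
  have hamgm : X ^ (p / 2) * Y ^ (3 / 2 + η) * (f (v (σ 2)) * f (v (σ 3))) ≤
      9 ^ (p / 2) * ((G (v (σ 2)) + G (v (σ 3))) / 2) := by
    have h1 : f (v (σ 2)) * f (v (σ 3)) ≤ (f (v (σ 2)) ^ 2 + f (v (σ 3)) ^ 2) / 2 := by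
      nlinarith [sq_nonneg (f (v (σ 2)) - f (v (σ 3)))]
    have h2 : 0 ≤ X ^ (p / 2) * Y ^ (3 / 2 + η) := by positivity
    have h3 := mul_le_mul_of_nonneg_left h1 h2
    linarith
  have hYY : Y ^ (3 / 4 + η / 2) * Y ^ (3 / 4 + η / 2) = Y ^ (3 / 2 + η) := by
    rw [← Real.rpow_add (by linarith)]
    congr 1
    ring
  have hff : f (v (σ 0)) * f (v (σ 1)) ≤
      Y ^ (3 / 2 + η) * (H (v (σ 0)) * H (v (σ 1))) := by
    calc f (v (σ 0)) * f (v (σ 1))
        ≤ (Y ^ (3 / 4 + η / 2) * H (v (σ 0))) * (Y ^ (3 / 4 + η / 2) * H (v (σ 1))) :=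
          mul_le_mul hf0' hf1' (hf _) (mul_nonneg (by positivity) (hH0 _))
      _ = (Y ^ (3 / 4 + η / 2) * Y ^ (3 / 4 + η / 2)) * (H (v (σ 0)) * H (v (σ 1))) := by ring
      _ = _ := by rw [hYY]
  rw [hprod]
  have h36 : (36 : ℝ) ^ (p / 2) = 4 ^ (p / 2) * 9 ^ (p / 2) := by
    rw [← Real.mul_rpow (by norm_num) (by norm_num)]; norm_num
  calc mx (v 0 + v 1) (v 2) (v 3) ^ (p / 2) *
        (f (v (σ 0)) * f (v (σ 1)) * f (v (σ 2)) * f (v (σ 3)))
      ≤ (4 ^ (p / 2) * X ^ (p / 2)) *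
        (f (v (σ 0)) * f (v (σ 1)) * f (v (σ 2)) * f (v (σ 3))) := by
        refine mul_le_mul_of_nonneg_right ?_ ?_
        · rw [← Real.mul_rpow (by norm_num) (by linarith)]
          exact Real.rpow_le_rpow hmx0 hmx (by linarith)
        · exact mul_nonneg (mul_nonneg (mul_nonneg (hf _) (hf _)) (hf _)) (hf _)
    _ = (4 ^ (p / 2) * X ^ (p / 2)) * ((f (v (σ 0)) * f (v (σ 1))) *
        (f (v (σ 2)) * f (v (σ 3)))) := by ring
    _ ≤ (4 ^ (p / 2) * X ^ (p / 2)) * ((Y ^ (3 / 2 + η) * (H (v (σ 0)) * H (v (σ 1)))) *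
        (f (v (σ 2)) * f (v (σ 3)))) := by
        refine mul_le_mul_of_nonneg_left ?_ (by positivity)
        exact mul_le_mul_of_nonneg_right hff (mul_nonneg (hf _) (hf _))
    _ = 4 ^ (p / 2) * ((X ^ (p / 2) * Y ^ (3 / 2 + η) * (f (v (σ 2)) * f (v (σ 3)))) *
        (H (v (σ 0)) * H (v (σ 1)))) := by ring
    _ ≤ 4 ^ (p / 2) * ((9 ^ (p / 2) * ((G (v (σ 2)) + G (v (σ 3))) / 2)) *
        (H (v (σ 0)) * H (v (σ 1)))) := by
        refine mul_le_mul_of_nonneg_left ?_ (by positivity)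
        exact mul_le_mul_of_nonneg_right hamgm (mul_nonneg (hH0 _) (hH0 _))
    _ = 36 ^ (p / 2) * ((G (v (σ 2)) * (H (v (σ 0)) * H (v (σ 1))) +
        G (v (σ 3)) * (H (v (σ 0)) * H (v (σ 1)))) / 2) := by rw [h36]; ring
    _ ≤ 36 ^ (p / 2) * S := by
        refine mul_le_mul_of_nonneg_left ?_ (by positivity)
        linarith

/-! ### the sums -/

/-- the quadruple of a triple -/
def quad (t : Wv × Wv × Wv) : Fin 4 → Wv := ![t.1, t.2.1, t.2.2, -(t.1 + t.2.1 + t.2.2)]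

theorem quad_sum (t : Wv × Wv × Wv) : quad t 0 + quad t 1 + quad t 2 + quad t 3 = 0 := by
  show t.1 + t.2.1 + t.2.2 + -(t.1 + t.2.1 + t.2.2) = 0
  abel

theorem perm_sum (σ : Equiv.Perm (Fin 4)) (t : Wv × Wv × Wv) :
    quad t (σ 0) + quad t (σ 1) + quad t (σ 2) + quad t (σ 3) = 0 := by
  have h1 : ∑ i, quad t (σ i) = ∑ i, quad t i := Equiv.sum_comp σ (quad t)
  rw [Fin.sum_univ_four, Fin.sum_univ_four, quad_sum] at h1
  exact h1

theorem quad_inj (σ : Equiv.Perm (Fin 4)) (t t' : Wv × Wv × Wv)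
    (h3 : quad t (σ 3) = quad t' (σ 3)) (h0 : quad t (σ 0) = quad t' (σ 0))
    (h1 : quad t (σ 1) = quad t' (σ 1)) : t = t' := by
  have h2 : quad t (σ 2) = quad t' (σ 2) := by
    have e1 := perm_sum σ t
    have e2 := perm_sum σ t'
    rw [h3, h0, h1] at e1
    have e3 : quad t' (σ 0) + quad t' (σ 1) + quad t (σ 2) + quad t' (σ 3) =
        quad t' (σ 0) + quad t' (σ 1) + quad t' (σ 2) + quad t' (σ 3) := e1.trans e2.symm
    have e4 := add_right_cancel e3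
    exact add_left_cancel e4
  have hall : ∀ i, quad t i = quad t' i := by
    intro i
    obtain ⟨j, rfl⟩ := σ.surjective i
    fin_cases j
    · exact h0
    · exact h1
    · exact h2
    · exact h3
  have a0 : t.1 = t'.1 := hall 0
  have a1 : t.2.1 = t'.2.1 := hall 1
  have a2 : t.2.2 = t'.2.2 := hall 2
  exact Prod.ext a0 (Prod.ext a1 a2)

theorem sum_perm (n : ℕ) (G H : Wv → ℝ) (hG : ∀ k, 0 ≤ G k) (hH : ∀ k, 0 ≤ H k)
    (σ : Equiv.Perm (Fin 4)) :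
    ∑ t ∈ (cub n ×ˢ cub n ×ˢ cub n).filter (fun t => -(t.1 + t.2.1 + t.2.2) ∈ cub n),
      G (quad t (σ 3)) * (H (quad t (σ 0)) * H (quad t (σ 1))) ≤
      (∑ k ∈ cub n, G k) * (∑ k ∈ cub n, H k) ^ 2 := by
  classical
  set D := (cub n ×ˢ cub n ×ˢ cub n).filter (fun t => -(t.1 + t.2.1 + t.2.2) ∈ cub n) with hD
  let g : Wv × Wv × Wv → Wv × Wv × Wv := fun t => (quad t (σ 3), quad t (σ 0), quad t (σ 1))
  have hg : Set.InjOn g D := by
    intro t _ t' _ h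
    have h3 : quad t (σ 3) = quad t' (σ 3) := congrArg Prod.fst h
    have h0 : quad t (σ 0) = quad t' (σ 0) := congrArg (fun x => x.2.1) h
    have h1 : quad t (σ 1) = quad t' (σ 1) := congrArg (fun x => x.2.2) h
    exact quad_inj σ t t' h3 h0 h1
  have hmem : ∀ t ∈ D, ∀ i, quad t i ∈ cub n := by
    intro t ht i
    rw [hD, Finset.mem_filter, Finset.mem_product, Finset.mem_product] at ht
    fin_cases i
    · exact ht.1.1
    · exact ht.1.2.1
    · exact ht.1.2.2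
    · exact ht.2
  calc ∑ t ∈ D, G (quad t (σ 3)) * (H (quad t (σ 0)) * H (quad t (σ 1)))
      = ∑ s ∈ D.image g, G s.1 * (H s.2.1 * H s.2.2) := by
        rw [Finset.sum_image hg]
    _ ≤ ∑ s ∈ cub n ×ˢ cub n ×ˢ cub n, G s.1 * (H s.2.1 * H s.2.2) := by
        refine Finset.sum_le_sum_of_subset_of_nonneg ?_ ?_
        · intro s hs
          obtain ⟨t, ht, rfl⟩ := Finset.mem_image.1 hs
          rw [Finset.mem_product, Finset.mem_product]
          exact ⟨hmem t ht _, hmem t ht _, hmem t ht _⟩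
        · intro s _ _
          exact mul_nonneg (hG _) (mul_nonneg (hH _) (hH _))
    _ = (∑ k ∈ cub n, G k) * (∑ k ∈ cub n, H k) ^ 2 := by
        rw [Finset.sum_product, Finset.sum_mul]
        refine Finset.sum_congr rfl fun k _ => ?_
        rw [Finset.sum_product, sq, Finset.sum_mul, Finset.mul_sum]
        refine Finset.sum_congr rfl fun l _ => ?_
        rw [Finset.mul_sum, Finset.mul_sum]

theorem t_S4 : S_S4 := by
  intro p η hp hη
  obtain ⟨C₁, hC₁, hlat⟩ := lattice hη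
  refine ⟨36 ^ (p / 2) * (24 * C₁), by positivity, ?_⟩
  intro n f hf hf0 hfn
  classical
  set G : Wv → ℝ := fun k => nsq k ^ (p / 2 + 3 / 2 + η) * f k ^ 2 with hG
  set H : Wv → ℝ := fun k => nsq k ^ (-(3 / 4 + η / 2)) * f k with hH
  have hG0 : ∀ k, 0 ≤ G k := fun k => mul_nonneg (Real.rpow_nonneg (nn k) _) (sq_nonneg _)
  have hH0 : ∀ k, 0 ≤ H k := fun k => mul_nonneg (Real.rpow_nonneg (nn k) _) (hf k)
  -- (∑ H)² ≤ C₁ ∑ f²
  have hHs : (∑ k ∈ cub n, H k) ^ 2 ≤ C₁ * ∑ k ∈ cub n, f k ^ 2 := by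
    have h1 : ∑ k ∈ cub n, H k =
        ∑ k ∈ cub n, (if k = 0 then 0 else nsq k ^ (-(3 / 4 + η / 2))) * f k := by
      refine Finset.sum_congr rfl fun k _ => ?_
      by_cases hk : k = 0
      · rw [if_pos hk, hH]; simp [hk, hf0]
      · rw [if_neg hk]
    rw [h1]
    refine (Finset.sum_mul_sq_le_sq_mul_sq _ _ _).trans ?_
    refine mul_le_mul_of_nonneg_right ?_ (Finset.sum_nonneg fun k _ => sq_nonneg _)
    refine le_trans (le_of_eq ?_) (hlat n)
    refine Finset.sum_congr rfl fun k _ => ?_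
    by_cases hk : k = 0
    · simp [hk]
    · rw [if_neg hk, if_neg hk, ← Real.rpow_natCast, ← Real.rpow_mul (nn k)]
      congr 1
      push_cast; ring
  set D := (cub n ×ˢ cub n ×ˢ cub n).filter (fun t => -(t.1 + t.2.1 + t.2.2) ∈ cub n) with hD
  have hlhs : ∑ a ∈ cub n, ∑ b ∈ cub n, ∑ l ∈ cub n,
        mx (a + b) l (-(a + b + l)) ^ (p / 2) * (f a * f b * f l * f (-(a + b + l))) =
      ∑ t ∈ D, mx (t.1 + t.2.1) t.2.2 (-(t.1 + t.2.1 + t.2.2)) ^ (p / 2) *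
        (f t.1 * f t.2.1 * f t.2.2 * f (-(t.1 + t.2.1 + t.2.2))) := by
    rw [hD, Finset.sum_filter, Finset.sum_product]
    refine Finset.sum_congr rfl fun a _ => ?_
    rw [Finset.sum_product]
    refine Finset.sum_congr rfl fun b _ => Finset.sum_congr rfl fun l _ => ?_
    split_ifs with h
    · rfl
    · rw [hfn _ h, mul_zero, mul_zero]
  rw [hlhs]
  calc ∑ t ∈ D, mx (t.1 + t.2.1) t.2.2 (-(t.1 + t.2.1 + t.2.2)) ^ (p / 2) *
        (f t.1 * f t.2.1 * f t.2.2 * f (-(t.1 + t.2.1 + t.2.2)))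
      ≤ ∑ t ∈ D, 36 ^ (p / 2) * ∑ σ : Equiv.Perm (Fin 4),
        G (quad t (σ 3)) * (H (quad t (σ 0)) * H (quad t (σ 1))) := by
        refine Finset.sum_le_sum fun t _ => ?_
        exact pointwise hp hη hf hf0 (quad t) (quad_sum t)
    _ = 36 ^ (p / 2) * ∑ σ : Equiv.Perm (Fin 4), ∑ t ∈ D,
        G (quad t (σ 3)) * (H (quad t (σ 0)) * H (quad t (σ 1))) := by
        rw [← Finset.mul_sum, Finset.sum_comm]
    _ ≤ 36 ^ (p / 2) * ∑ _σ : Equiv.Perm (Fin 4), (∑ k ∈ cub n, G k) * (∑ k ∈ cub n, H k) ^ 2 := by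
        refine mul_le_mul_of_nonneg_left ?_ (by positivity)
        exact Finset.sum_le_sum fun σ _ => sum_perm n G H hG0 hH0 σ
    _ = 36 ^ (p / 2) * (24 * ((∑ k ∈ cub n, G k) * (∑ k ∈ cub n, H k) ^ 2)) := by
        rw [Finset.sum_const, Finset.card_univ, Fintype.card_perm, Fintype.card_fin]
        have : (4 : ℕ).factorial = 24 := by decide
        rw [this, nsmul_eq_mul]
        norm_num
    _ ≤ 36 ^ (p / 2) * (24 * ((∑ k ∈ cub n, G k) * (C₁ * ∑ k ∈ cub n, f k ^ 2))) := by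
        refine mul_le_mul_of_nonneg_left (mul_le_mul_of_nonneg_left
          (mul_le_mul_of_nonneg_left hHs (Finset.sum_nonneg fun k _ => hG0 k)) (by norm_num))
          (by positivity)
    _ = 36 ^ (p / 2) * (24 * C₁) * (∑ k ∈ cub n, f k ^ 2) * ∑ k ∈ cub n, G k := by ring

end Pool.Agent.U460.DS
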